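import Mathlib

/-!
Rigorous enclosure (kernel-evaluated branch and bound in integer fixed-point arithmetic) for the
pair of functions `F t = (1014/1000) t - (577/1000) G (2t^2-1)`,
`G t = (986/1000) t - (577/1000) F (2t^2-1)` on `[-1,1]`.
-/

set_option autoImplicit false

namespace Pool.Agent.H83.Bern

/-- scale `2^40` -/
def SC : ℤ := 1099511627776

/-- scaled crude bound `≥ 2.4 * 2^40` -/
def UU : ℤ := 2638827906663

/-- lower bound of the image of `[l,r]` under `2x²-1` (scaled) -/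
def tl (l r : ℤ) : ℤ :=
  if 0 ≤ l then 2*l*l / SC - SC else if r ≤ 0 then 2*r*r/SC - SC else -SC

/-- upper bound of the image of `[l,r]` under `2x²-1` (scaled) -/
def tu (l r : ℤ) : ℤ :=
  min SC (-((-(2*max (l*l) (r*r))) / SC) - SC)

/-- enclosure of `F` over the cell `[l,r]` -/
def rng : ℕ → ℤ → ℤ → ℤ → ℤ → ℤ × ℤ
  | 0, _, _, _, _ => (-UU, UU)
  | n+1, a, b, l, r =>
    let p := rng n b a (tl l r) (tu l r)
    ((a*l - 577*p.2)/1000, -((-(a*r - 577*p.1))/1000))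

/-- check that the enclosure of `F` on the cell `[l,r]` is in `[lo,hi]`, with bisection -/
def chk (lo hi : ℤ) : ℕ → ℤ → ℤ → Bool
  | 0, _, _ => false
  | k+1, l, r =>
    let p := rng 24 1014 986 l r
    (decide (lo ≤ p.1) && decide (p.2 ≤ hi)) ||
      (chk lo hi k l ((l+r)/2) && chk lo hi k ((l+r)/2) r)

theorem SC_pos : (0:ℤ) < SC := by norm_num [SC]

theorem SC_pos' : (0:ℝ) < (SC:ℝ) := by exact_mod_cast SC_pos

theorem ediv_le_real (x d : ℤ) (hd : 0 < d) (y : ℝ) (h : (x:ℝ) ≤ d * y) : ((x / d : ℤ) : ℝ) ≤ y := by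
  have h1 : x / d * d ≤ x := Int.ediv_mul_le x hd.ne'
  have h2 : ((x / d : ℤ) : ℝ) * d ≤ x := by exact_mod_cast h1
  have hd' : (0:ℝ) < d := by exact_mod_cast hd
  nlinarith

theorem le_neg_ediv_real (x d : ℤ) (hd : 0 < d) (y : ℝ) (h : d * y ≤ (x:ℝ)) :
    y ≤ ((-((-x) / d) : ℤ) : ℝ) := by
  have h1 := ediv_le_real (-x) d hd (-y) (by push_cast; linarith)
  push_cast at h1 ⊢
  linarith

theorem tl_sound (l r : ℤ) (t : ℝ) (_ht : -1 ≤ t ∧ t ≤ 1) (hl : (l:ℝ) ≤ SC * t)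
    (hr : (SC:ℝ) * t ≤ r) : ((tl l r : ℤ):ℝ) ≤ SC * (2*t^2-1) := by
  have hS := SC_pos'
  unfold tl
  split_ifs with h0 h1
  · have h0' : (0:ℝ) ≤ l := by exact_mod_cast h0
    have := ediv_le_real (2*l*l) SC SC_pos (SC * (2*t^2)) (by
      push_cast
      nlinarith)
    rw [Int.cast_sub]
    linarith
  · have h1' : (r:ℝ) ≤ 0 := by exact_mod_cast h1
    have := ediv_le_real (2*r*r) SC SC_pos (SC * (2*t^2)) (by
      push_cast
      nlinarith)
    rw [Int.cast_sub]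
    linarith
  · push_cast
    nlinarith [sq_nonneg t]

theorem tu_sound (l r : ℤ) (t : ℝ) (ht : -1 ≤ t ∧ t ≤ 1) (hl : (l:ℝ) ≤ SC * t)
    (hr : (SC:ℝ) * t ≤ r) : SC * (2*t^2-1) ≤ ((tu l r : ℤ):ℝ) := by
  have hS := SC_pos'
  unfold tu
  rw [Int.cast_min, le_min_iff]
  constructor
  · have : t^2 ≤ 1 := by nlinarith
    nlinarith
  · have hm : (SC*t)*(SC*t) ≤ ((max (l*l) (r*r) : ℤ) : ℝ) := by
      rcases le_total 0 t with h | h
      · have h2 : (SC*t)*(SC*t) ≤ (r:ℝ)*r := by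
          have : 0 ≤ SC*t := by positivity
          nlinarith
        refine h2.trans ?_
        have : r*r ≤ max (l*l) (r*r) := le_max_right _ _
        exact_mod_cast this
      · have h2 : (SC*t)*(SC*t) ≤ (l:ℝ)*l := by
          have : SC*t ≤ 0 := mul_nonpos_of_nonneg_of_nonpos hS.le h
          nlinarith
        refine h2.trans ?_
        have : l*l ≤ max (l*l) (r*r) := le_max_left _ _
        exact_mod_cast this
    have := le_neg_ediv_real (2*max (l*l) (r*r)) SC SC_pos (SC * (2*t^2)) (by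
      rw [Int.cast_mul]
      push_cast at hm ⊢
      nlinarith)
    rw [Int.cast_sub]
    linarith

/-- the hypotheses on a pair of functions -/
def Pair (a b : ℤ) (F G : ℝ → ℝ) : Prop :=
  (∀ t : ℝ, -1 ≤ t ∧ t ≤ 1 → F t = a/1000*t - 577/1000*G (2*t^2-1)) ∧
  (∀ t : ℝ, -1 ≤ t ∧ t ≤ 1 → G t = b/1000*t - 577/1000*F (2*t^2-1)) ∧
  (∀ t : ℝ, -1 ≤ t ∧ t ≤ 1 → |F t| ≤ 24/10) ∧ (∀ t : ℝ, -1 ≤ t ∧ t ≤ 1 → |G t| ≤ 24/10)

theorem Pair.symm {a b : ℤ} {F G : ℝ → ℝ} (h : Pair a b F G) : Pair b a G F :=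
  ⟨h.2.1, h.1, h.2.2.2, h.2.2.1⟩

theorem tau_mem (t : ℝ) (ht : -1 ≤ t ∧ t ≤ 1) : -1 ≤ 2*t^2-1 ∧ 2*t^2-1 ≤ 1 := by
  constructor <;> nlinarith [sq_nonneg t]

theorem rng_sound (n : ℕ) : ∀ (a b l r : ℤ) (F G : ℝ → ℝ), 0 ≤ a → 0 ≤ b → Pair a b F G →
    ∀ t : ℝ, -1 ≤ t ∧ t ≤ 1 → (l:ℝ) ≤ SC * t → (SC:ℝ) * t ≤ r →
    (((rng n a b l r).1 : ℤ) : ℝ) ≤ SC * F t ∧ SC * F t ≤ (((rng n a b l r).2 : ℤ) : ℝ) := by
  induction n with
  | zero =>
    intro a b l r F G _ _ h t ht _ _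
    have h1 := abs_le.1 (h.2.2.1 t ht)
    have hS := SC_pos'
    have hU : (24/10 : ℝ) * SC ≤ UU := by
      norm_num [SC, UU]
    simp only [rng]
    push_cast
    constructor <;> nlinarith
  | succ n ih =>
    intro a b l r F G ha hb h t ht hl hr
    have hS := SC_pos'
    have ha' : (0:ℝ) ≤ a := by exact_mod_cast ha
    have hG := ih b a (tl l r) (tu l r) G F hb ha h.symm (2*t^2-1) (tau_mem t ht)
      (tl_sound l r t ht hl hr) (tu_sound l r t ht hl hr)
    have hF := h.1 t ht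
    simp only [rng]
    generalize rng n b a (tl l r) (tu l r) = p at hG
    obtain ⟨g1, g2⟩ := hG
    constructor
    · apply ediv_le_real _ _ (by norm_num)
      rw [hF]
      push_cast
      nlinarith
    · apply le_neg_ediv_real _ _ (by norm_num)
      rw [hF]
      push_cast
      nlinarith

theorem chk_sound (lo hi : ℤ) (F G : ℝ → ℝ) (h : Pair 1014 986 F G) (k : ℕ) :
    ∀ l r : ℤ, chk lo hi k l r = true →
    ∀ t : ℝ, -1 ≤ t ∧ t ≤ 1 → (l:ℝ) ≤ SC * t → (SC:ℝ) * t ≤ r →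
    (lo : ℝ) ≤ SC * F t ∧ SC * F t ≤ hi := by
  induction k with
  | zero => intro l r hc; simp [chk] at hc
  | succ k ih =>
    intro l r hc t ht hl hr
    simp only [chk, Bool.or_eq_true, Bool.and_eq_true, decide_eq_true_eq] at hc
    rcases hc with ⟨h1, h2⟩ | ⟨h1, h2⟩
    · have := rng_sound 24 1014 986 l r F G (by norm_num) (by norm_num) h t ht hl hr
      have h1' : (lo:ℝ) ≤ (((rng 24 1014 986 l r).1 : ℤ):ℝ) := by exact_mod_cast h1
      have h2' : (((rng 24 1014 986 l r).2 : ℤ):ℝ) ≤ hi := by exact_mod_cast h2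
      exact ⟨h1'.trans this.1, this.2.trans h2'⟩
    · rcases le_total ((SC:ℝ) * t) (((l+r)/2 : ℤ):ℝ) with h3 | h3
      · exact ih _ _ h1 t ht hl h3
      · exact ih _ _ h2 t ht h3 hr

theorem cert_F : chk (-1642464000000) 1275428000000 30 (-SC) SC = true := by decide +kernel

theorem cert_G1 : 1282398115635 ≤ (rng 30 986 1014 339767838703 339767838703).1 := by
  decide +kernel

theorem cert_G2 : (rng 30 986 1014 (-1085974775000) (-1085974775000)).2 ≤ -1635522977543 := by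
  decide +kernel

/-- The numerical heart: the oscillation of `F` is smaller than a difference of two values
of `G`. -/
theorem numeric {F G : ℝ → ℝ} (h : Pair 1014 986 F G) :
    ∃ M m t₁ t₂ : ℝ, (∀ t : ℝ, -1 ≤ t ∧ t ≤ 1 → m ≤ F t ∧ F t ≤ M) ∧
      (-1 ≤ t₁ ∧ t₁ ≤ 1) ∧ (-1 ≤ t₂ ∧ t₂ ≤ 1) ∧ M - m < G t₁ - G t₂ := by
  have hS := SC_pos'
  have hSe : (SC:ℝ) = 1099511627776 := by norm_num [SC]
  refine ⟨1275428000000/SC, -1642464000000/SC, 339767838703/SC, -1085974775000/SC, ?_, ?_, ?_, ?_⟩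
  · intro t ht
    have := chk_sound (-1642464000000) 1275428000000 F G h 30 (-SC) SC cert_F t ht
      (by push_cast; nlinarith) (by nlinarith)
    push_cast at this
    constructor
    · rw [div_le_iff₀ hS]; linarith
    · rw [le_div_iff₀ hS]; linarith
  · rw [hSe]; constructor <;> norm_num
  · rw [hSe]; constructor <;> norm_num
  · have h1 := rng_sound 30 986 1014 339767838703 339767838703 G F (by norm_num) (by norm_num)
      h.symm (339767838703/SC) (by rw [hSe]; constructor <;> norm_num)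
      (by rw [hSe]; norm_num) (by rw [hSe]; norm_num)
    have h2 := rng_sound 30 986 1014 (-1085974775000) (-1085974775000) G F (by norm_num)
      (by norm_num) h.symm (-1085974775000/SC) (by rw [hSe]; constructor <;> norm_num)
      (by rw [hSe]; norm_num) (by rw [hSe]; norm_num)
    have e1 : (1282398115635:ℝ) ≤ (((rng 30 986 1014 339767838703 339767838703).1 : ℤ):ℝ) := by
      exact_mod_cast cert_G1
    have e2 : (((rng 30 986 1014 (-1085974775000) (-1085974775000)).2 : ℤ):ℝ) ≤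
        -1635522977543 := by
      exact_mod_cast cert_G2
    have k1 := e1.trans h1.1
    have k2 := h2.2.trans e2
    rw [hSe] at k1 k2 ⊢
    norm_num at k1 k2 ⊢
    linarith

end Pool.Agent.H83.Bern
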