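import Mathlib

/-!
Polynomial part: functions with `f t = α t + β - ρ g (2t²-1)`, `g t = γ t + δ - ρ f (2t²-1)` on
`[-1,1]`, both with range-extrema `±1`; their best approximations.
-/

set_option autoImplicit false

namespace Pool.Agent.H83.Bern

open Polynomial

noncomputable def tauP : ℝ[X] := C 2 * X^2 - 1

theorem tauP_eval (x : ℝ) : tauP.eval x = 2*x^2-1 := by simp [tauP]

theorem tauP_natDegree : tauP.natDegree = 2 := by
  unfold tauP
  rw [show (C 2 * X^2 - 1 : ℝ[X]) = C 2 * X^2 + C 0 * X + C (-1) by simp; ring]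
  exact natDegree_quadratic (by norm_num)

theorem tauP_leadingCoeff : tauP.leadingCoeff = 2 := by
  unfold tauP
  rw [show (C 2 * X^2 - 1 : ℝ[X]) = C 2 * X^2 + C 0 * X + C (-1) by simp; ring]
  exact leadingCoeff_quadratic (by norm_num)

/-- partial sums of the Chebyshev series -/
noncomputable def PP (ρ : ℝ) : ℕ → ℝ → ℝ → ℝ → ℝ → ℝ[X]
  | 0, _, _, _, _ => 0
  | n+1, α, β, γ, δ => C α * X + C β - C ρ * (PP ρ n γ δ α β).comp tauP

/-- The hypotheses on the pair of functions. -/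
structure Good (ρ : ℝ) (f g : ℝ → ℝ) (α β γ δ : ℝ) : Prop where
  rho_pos : 0 < ρ
  hα : 0 < α
  hγ : 0 < γ
  hf : ∀ t : ℝ, -1 ≤ t ∧ t ≤ 1 → f t = α*t + β - ρ * g (2*t^2-1)
  hg : ∀ t : ℝ, -1 ≤ t ∧ t ≤ 1 → g t = γ*t + δ - ρ * f (2*t^2-1)
  bf : ∀ t : ℝ, -1 ≤ t ∧ t ≤ 1 → |f t| ≤ 1
  bg : ∀ t : ℝ, -1 ≤ t ∧ t ≤ 1 → |g t| ≤ 1
  f1 : ∃ t : ℝ, (-1 ≤ t ∧ t ≤ 1) ∧ f t = 1
  f2 : ∃ t : ℝ, (-1 ≤ t ∧ t ≤ 1) ∧ f t = -1
  g1 : ∃ t : ℝ, (-1 ≤ t ∧ t ≤ 1) ∧ g t = 1
  g2 : ∃ t : ℝ, (-1 ≤ t ∧ t ≤ 1) ∧ g t = -1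

theorem Good.symm {ρ : ℝ} {f g : ℝ → ℝ} {α β γ δ : ℝ} (h : Good ρ f g α β γ δ) :
    Good ρ g f γ δ α β :=
  ⟨h.rho_pos, h.hγ, h.hα, h.hg, h.hf, h.bg, h.bf, h.g1, h.g2, h.f1, h.f2⟩

theorem even_part (q : ℝ[X]) (n : ℕ) (hq : q.natDegree < 2^(n+1)) :
    ∃ r : ℝ[X], r.natDegree < 2^n ∧ ∀ x : ℝ, q.eval x + q.eval (-x) = 2 * r.eval (2*x^2-1) := by
  refine ⟨∑ i ∈ Finset.range (q.natDegree+1),
    if Even i then C (q.coeff i) * (C (1/2) * (X+1))^(i/2) else 0, ?_, ?_⟩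
  · have h1 : (∑ i ∈ Finset.range (q.natDegree+1),
      if Even i then C (q.coeff i) * (C (1/2 : ℝ) * (X+1))^(i/2) else 0).natDegree ≤
        q.natDegree / 2 := by
      apply natDegree_sum_le_of_forall_le
      intro i hi
      have hi' : i ≤ q.natDegree := by
        have := Finset.mem_range.1 hi
        omega
      split_ifs with he
      · refine natDegree_C_mul_le _ _ |>.trans ?_
        refine natDegree_pow_le.trans ?_
        have h2 : (C (1/2 : ℝ) * (X+1)).natDegree ≤ 1 := by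
          refine natDegree_C_mul_le _ _ |>.trans ?_
          have : (X + 1 : ℝ[X]) = X + C 1 := by simp
          rw [this, natDegree_X_add_C]
        calc i/2 * (C (1/2 : ℝ) * (X+1)).natDegree ≤ i/2 * 1 := Nat.mul_le_mul_left _ h2
          _ ≤ q.natDegree / 2 := by rw [mul_one]; exact Nat.div_le_div_right hi'
      · simp
    refine lt_of_le_of_lt h1 ?_
    rw [pow_succ] at hq
    omega
  · intro x
    rw [eval_eq_sum_range, eval_eq_sum_range, ← Finset.sum_add_distrib, eval_finsetSum,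
      Finset.mul_sum]
    apply Finset.sum_congr rfl
    intro i _
    split_ifs with he
    · obtain ⟨m, hm⟩ := he
      have hm2 : i = 2*m := by omega
      subst hm2
      have : 2*m/2 = m := by omega
      rw [this]
      simp only [eval_mul, eval_C, eval_pow, eval_add, eval_X, eval_one]
      rw [pow_mul, pow_mul, neg_sq]
      have : (1/2 * (2*x^2-1+1) : ℝ) = x^2 := by ring
      rw [this]
      ring
    · have ho : Odd i := Nat.not_even_iff_odd.1 he
      rw [ho.neg_pow]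
      simp

theorem lower {ρ : ℝ} (n : ℕ) : ∀ {f g : ℝ → ℝ} {α β γ δ : ℝ}, Good ρ f g α β γ δ →
    ∀ q : ℝ[X], q.natDegree < 2^n →
    ∃ t : ℝ, (-1 ≤ t ∧ t ≤ 1) ∧ ρ^n ≤ |f t - (PP ρ n α β γ δ).eval t - q.eval t| := by
  induction n with
  | zero =>
    intro f g α β γ δ h q hq
    have hq0 : q.natDegree = 0 := by simpa using hq
    obtain ⟨c, rfl⟩ : ∃ c, q = C c := ⟨_, eq_C_of_natDegree_eq_zero hq0⟩
    rcases le_total c 0 with hc | hc
    · obtain ⟨t, ht, h1⟩ := h.f1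
      refine ⟨t, ht, ?_⟩
      rw [h1]
      simp only [PP, eval_zero, eval_C, pow_zero]
      rw [le_abs]
      left; linarith
    · obtain ⟨t, ht, h1⟩ := h.f2
      refine ⟨t, ht, ?_⟩
      rw [h1]
      simp only [PP, eval_zero, eval_C, pow_zero]
      rw [le_abs]
      right; linarith
  | succ n ih =>
    intro f g α β γ δ h q hq
    obtain ⟨r, hr, hqr⟩ := even_part q n hq
    have hρ := h.rho_pos
    obtain ⟨u, hu, hu2⟩ := ih h.symm (C (-(1/ρ)) * r) (lt_of_le_of_lt (natDegree_C_mul_le _ _) hr)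
    -- the preimage
    obtain ⟨x, hx, hxu⟩ : ∃ x : ℝ, (-1 ≤ x ∧ x ≤ 1) ∧ 2*x^2-1 = u := by
      refine ⟨Real.sqrt ((1+u)/2), ⟨?_, ?_⟩, ?_⟩
      · linarith [Real.sqrt_nonneg ((1+u)/2)]
      · rw [Real.sqrt_le_one]; linarith
      · rw [Real.sq_sqrt (by linarith)]; ring
    have hx' : -1 ≤ -x ∧ -x ≤ 1 := ⟨by linarith, by linarith⟩
    have hfx := h.hf x hx
    have hfx' := h.hf (-x) hx'
    rw [neg_sq] at hfx'
    rw [hxu] at hfx hfx'
    have hq2 := hqr x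
    rw [hxu] at hq2
    set D : ℝ := g u - (PP ρ n γ δ α β).eval u - (C (-(1/ρ)) * r).eval u with hD
    have hPx : (PP ρ (n+1) α β γ δ).eval x = α*x+β - ρ * (PP ρ n γ δ α β).eval u := by
      simp only [PP, eval_sub, eval_add, eval_mul, eval_C, eval_X, eval_comp, tauP_eval]
      rw [hxu]
    have hPx' : (PP ρ (n+1) α β γ δ).eval (-x) = α*(-x)+β - ρ * (PP ρ n γ δ α β).eval u := by
      simp only [PP, eval_sub, eval_add, eval_mul, eval_C, eval_X, eval_comp, tauP_eval]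
      rw [neg_sq, hxu]
    have hsum : (f x - (PP ρ (n+1) α β γ δ).eval x - q.eval x) +
        (f (-x) - (PP ρ (n+1) α β γ δ).eval (-x) - q.eval (-x)) = -(2 * ρ * D) := by
      rw [hPx, hPx', hfx, hfx', hD]
      simp only [eval_mul, eval_C]
      have : ρ * (-(1/ρ) * r.eval u) = - r.eval u := by field_simp
      linear_combination (-1 : ℝ) * hq2 - 2 * this
    have habs : 2 * ρ^(n+1) ≤ |f x - (PP ρ (n+1) α β γ δ).eval x - q.eval x| +
        |f (-x) - (PP ρ (n+1) α β γ δ).eval (-x) - q.eval (-x)| := by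
      refine le_trans ?_ (abs_add_le _ _)
      rw [hsum, abs_neg, abs_mul, abs_mul, abs_of_pos hρ, abs_of_pos (by norm_num : (0:ℝ) < 2)]
      rw [pow_succ]
      nlinarith
    by_cases hc : ρ^(n+1) ≤ |f x - (PP ρ (n+1) α β γ δ).eval x - q.eval x|
    · exact ⟨x, hx, hc⟩
    · exact ⟨-x, hx', by linarith [not_le.1 hc]⟩

theorem upper {ρ : ℝ} (n : ℕ) : ∀ {f g : ℝ → ℝ} {α β γ δ : ℝ}, Good ρ f g α β γ δ →
    ∀ t : ℝ, (-1 ≤ t ∧ t ≤ 1) → |f t - (PP ρ n α β γ δ).eval t| ≤ ρ^n := by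
  induction n with
  | zero =>
    intro f g α β γ δ h t ht
    simpa [PP] using h.bf t ht
  | succ n ih =>
    intro f g α β γ δ h t ht
    have hρ := h.rho_pos
    have ht2 : -1 ≤ 2*t^2-1 ∧ 2*t^2-1 ≤ 1 := by
      constructor <;> nlinarith [sq_nonneg t]
    have := ih h.symm (2*t^2-1) ht2
    have hP : (PP ρ (n+1) α β γ δ).eval t = α*t+β - ρ * (PP ρ n γ δ α β).eval (2*t^2-1) := by
      simp only [PP, eval_sub, eval_add, eval_mul, eval_C, eval_X, eval_comp, tauP_eval]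
    rw [hP, h.hf t ht]
    have e : α*t + β - ρ * g (2*t^2-1) - (α*t+β - ρ * (PP ρ n γ δ α β).eval (2*t^2-1)) =
      - (ρ * (g (2*t^2-1) - (PP ρ n γ δ α β).eval (2*t^2-1))) := by ring
    rw [e, abs_neg, abs_mul, abs_of_pos hρ]
    calc ρ * |g (2*t^2-1) - (PP ρ n γ δ α β).eval (2*t^2-1)| ≤ ρ * ρ^n :=
          mul_le_mul_of_nonneg_left this hρ.le
      _ = ρ^(n+1) := by ring

theorem degPP {ρ : ℝ} (hρ : 0 < ρ) (n : ℕ) : ∀ {α β γ δ : ℝ}, 0 < α → 0 < γ →
    (PP ρ (n+1) α β γ δ).natDegree = 2^n ∧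
      0 < (-1)^n * (PP ρ (n+1) α β γ δ).leadingCoeff := by
  induction n with
  | zero =>
    intro α β γ δ hα hγ
    have : PP ρ (0+1) α β γ δ = C α * X + C β := by simp [PP]
    rw [this, natDegree_linear hα.ne', leadingCoeff_linear hα.ne']
    simpa using hα
  | succ n ih =>
    intro α β γ δ hα hγ
    obtain ⟨ih1, ih2⟩ := ih (α := γ) (β := δ) (γ := α) (δ := β) hγ hα
    have e : PP ρ (n+1+1) α β γ δ =
      C α * X + C β - C ρ * (PP ρ (n+1) γ δ α β).comp tauP := rfl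
    set Q := PP ρ (n+1) γ δ α β with hQ
    have h1 : (C ρ * Q.comp tauP).natDegree = 2^(n+1) := by
      rw [natDegree_C_mul hρ.ne', natDegree_comp, ih1, tauP_natDegree, pow_succ]
    have h2 : (C ρ * Q.comp tauP).leadingCoeff = ρ * (Q.leadingCoeff * 2^(2^n)) := by
      rw [leadingCoeff_mul, leadingCoeff_C,
        leadingCoeff_comp (by rw [tauP_natDegree]; norm_num), tauP_leadingCoeff, ih1]
    have h3 : (C α * X + C β).natDegree < (C ρ * Q.comp tauP).natDegree := by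
      rw [natDegree_linear hα.ne', h1]
      exact Nat.one_lt_two_pow (by omega)
    have h4 : (C α * X + C β).degree < (C ρ * Q.comp tauP).degree :=
      degree_lt_degree h3
    rw [e]
    constructor
    · rw [natDegree_sub_eq_right_of_natDegree_lt h3, h1]
    · rw [leadingCoeff_sub_of_degree_lt' h4, h2]
      have h5 : (0:ℝ) < 2^(2^n) := by positivity
      have : (-1:ℝ)^(n+1) * -(ρ * (Q.leadingCoeff * 2^(2^n))) =
        ρ * 2^(2^n) * ((-1)^n * Q.leadingCoeff) := by ring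
      rw [this]
      positivity

end Pool.Agent.H83.Bern
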