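import Mathlib
import Pool.Agent.H83.BernNum
import Pool.Agent.H83.BernPoly

/-!
Existence of the two functions `f, g` on `[-1,1]` with `f t = α t + β - ρ g (2t²-1)`,
`g t = γ t + δ - ρ f (2t²-1)`, both with extrema `±1`, and `α ≠ γ`.
-/

set_option autoImplicit false

namespace Pool.Agent.H83.Bern

/-- the interval -/
abbrev I11 : Set ℝ := Set.Icc (-1:ℝ) 1

instance : Nonempty I11 := ⟨⟨0, by constructor <;> norm_num⟩⟩

theorem hI : (-1:ℝ) ≤ 1 := by norm_num

/-- the doubling map -/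
noncomputable def tau : C(I11, I11) :=
  ⟨fun t => ⟨2*(t:ℝ)^2-1, tau_mem t.1 t.2⟩, by fun_prop⟩

theorem tau_coe (t : I11) : ((tau t : I11) : ℝ) = 2*(t:ℝ)^2-1 := rfl

/-- the coordinate function -/
noncomputable def iot : C(I11, ℝ) := ⟨fun t => (t:ℝ), by fun_prop⟩

noncomputable def rho : ℝ := 577/1000

theorem rho_pos : 0 < rho := by norm_num [rho]

noncomputable def Phi (f : C(I11, ℝ)) : C(I11, ℝ) := iot + (rho^2) • ((f.comp tau).comp tau)

theorem Phi_apply (f : C(I11, ℝ)) (t : I11) : Phi f t = (t:ℝ) + rho^2 * f (tau (tau t)) := rfl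

theorem Phi_contr : ContractingWith (1/2) Phi := by
  refine ⟨by
    rw [← NNReal.coe_lt_coe]; norm_num, ?_⟩
  apply LipschitzWith.of_dist_le_mul
  intro f g
  rw [ContinuousMap.dist_le (by positivity)]
  intro t
  rw [Phi_apply, Phi_apply, dist_add_left, Real.dist_eq, ← mul_sub, abs_mul]
  have h1 : |f (tau (tau t)) - g (tau (tau t))| ≤ dist f g := by
    rw [← Real.dist_eq]; exact ContinuousMap.dist_apply_le_dist _
  have h2 : |rho^2| ≤ 1/2 := by rw [abs_of_nonneg (by positivity)]; norm_num [rho]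
  have h3 : ((1/2 : NNReal) : ℝ) = 1/2 := by norm_num
  rw [h3]
  exact mul_le_mul h2 h1 (abs_nonneg _) (by norm_num)

/-- the basic function `A` -/
noncomputable def AA : C(I11, ℝ) := ContractingWith.fixedPoint Phi Phi_contr

theorem AA_eq (t : I11) : AA t = (t:ℝ) + rho^2 * AA (tau (tau t)) := by
  have h : Phi AA = AA := Phi_contr.fixedPoint_isFixedPt
  conv_lhs => rw [← h]
  rfl

/-- the family -/
noncomputable def FF (p q : ℝ) : C(I11, ℝ) := p • AA - (q * rho) • AA.comp tau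

theorem FF_apply (p q : ℝ) (t : I11) : FF p q t = p * AA t - q * rho * AA (tau t) := rfl

theorem FF_eq (p q : ℝ) (t : I11) : FF p q t = p * (t:ℝ) - rho * FF q p (tau t) := by
  rw [FF_apply, FF_apply, AA_eq t]
  ring

/-- maximum and minimum -/
noncomputable def mx (f : C(I11, ℝ)) : ℝ := sSup (Set.range f)
noncomputable def mn (f : C(I11, ℝ)) : ℝ := sInf (Set.range f)

theorem mx_spec (f : C(I11, ℝ)) : (∀ t, f t ≤ mx f) ∧ ∃ t, f t = mx f := by
  have hc : IsCompact (Set.range f) := isCompact_range f.continuous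
  have hn : (Set.range f).Nonempty := Set.range_nonempty f
  refine ⟨fun t => le_csSup hc.bddAbove ⟨t, rfl⟩, hc.sSup_mem hn⟩

theorem mn_spec (f : C(I11, ℝ)) : (∀ t, mn f ≤ f t) ∧ ∃ t, f t = mn f := by
  have hc : IsCompact (Set.range f) := isCompact_range f.continuous
  have hn : (Set.range f).Nonempty := Set.range_nonempty f
  refine ⟨fun t => csInf_le hc.bddBelow ⟨t, rfl⟩, hc.sInf_mem hn⟩

theorem mx_cont : Continuous mx := by
  have h := IsCompact.continuous_sSup (f := fun (f : C(I11, ℝ)) (x : I11) => f x)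
    (K := Set.univ) isCompact_univ (by fun_prop)
  have e : mx = fun f : C(I11, ℝ) => sSup ((fun x => f x) '' Set.univ) := by
    funext f
    rw [Set.image_univ]; rfl
  rw [e]; exact h

theorem mn_cont : Continuous mn := by
  have h := IsCompact.continuous_sInf (f := fun (f : C(I11, ℝ)) (x : I11) => f x)
    (K := Set.univ) isCompact_univ (by fun_prop)
  have e : mn = fun f : C(I11, ℝ) => sInf ((fun x => f x) '' Set.univ) := by
    funext f
    rw [Set.image_univ]; rfl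
  rw [e]; exact h

/-- difference of oscillations -/
noncomputable def DD (θ : ℝ) : ℝ :=
  (mx (FF (1+θ) (1-θ)) - mn (FF (1+θ) (1-θ))) - (mx (FF (1-θ) (1+θ)) - mn (FF (1-θ) (1+θ)))

theorem FF_cont {p q : ℝ → ℝ} (hp : Continuous p) (hq : Continuous q) :
    Continuous (fun θ => FF (p θ) (q θ)) := by
  unfold FF
  fun_prop

theorem DD_cont : Continuous DD := by
  unfold DD
  have h1 := FF_cont (p := fun θ => 1+θ) (q := fun θ => 1-θ) (by fun_prop) (by fun_prop)
  have h2 := FF_cont (p := fun θ => 1-θ) (q := fun θ => 1+θ) (by fun_prop) (by fun_prop)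
  exact ((mx_cont.comp h1).sub (mn_cont.comp h1)).sub ((mx_cont.comp h2).sub (mn_cont.comp h2))

theorem ext_apply (f : C(I11, ℝ)) (t : ℝ) (ht : -1 ≤ t ∧ t ≤ 1) :
    Set.IccExtend hI f t = f ⟨t, ht⟩ := Set.IccExtend_of_mem hI f ht

theorem end1 : (1:ℝ) ∈ I11 := by constructor <;> norm_num
theorem endm1 : (-1:ℝ) ∈ I11 := by constructor <;> norm_num

theorem tau_ends : tau ⟨1, end1⟩ = tau ⟨-1, endm1⟩ := by
  apply Subtype.ext
  rw [tau_coe, tau_coe]
  norm_num

theorem FF_ends (p q : ℝ) : FF p q ⟨1, end1⟩ - FF p q ⟨-1, endm1⟩ = 2*p := by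
  rw [FF_eq p q ⟨1, end1⟩, FF_eq p q ⟨-1, endm1⟩, tau_ends]
  ring

theorem osc_pos (p q : ℝ) (hp : 0 < p) : 0 < mx (FF p q) - mn (FF p q) := by
  have h1 := (mx_spec (FF p q)).1 ⟨1, end1⟩
  have h2 := (mn_spec (FF p q)).1 ⟨-1, endm1⟩
  have h3 := FF_ends p q
  linarith

theorem DD_one : 0 < DD 1 := by
  unfold DD
  have e1 : (1:ℝ)-1 = 0 := by norm_num
  have e2 : (1:ℝ)+1 = 2 := by norm_num
  rw [e1, e2]
  have hp := osc_pos 2 0 (by norm_num)
  obtain ⟨x, hx⟩ := (mx_spec (FF 0 2)).2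
  obtain ⟨y, hy⟩ := (mn_spec (FF 0 2)).2
  rw [← hx, ← hy, FF_eq, FF_eq 0 2 y]
  have h1 := (mx_spec (FF 2 0)).1 (tau y)
  have h2 := (mn_spec (FF 2 0)).1 (tau x)
  have hr : rho = 577/1000 := rfl
  rw [hr]
  linarith

theorem norm_bounds (p q : ℝ) (hp : 0 ≤ p) : ‖FF p q‖ ≤ p + rho * ‖FF q p‖ := by
  rw [ContinuousMap.norm_le _ (by have := rho_pos; positivity)]
  intro t
  rw [FF_eq]
  have h1 : ‖p * (t:ℝ)‖ ≤ p := by
    rw [Real.norm_eq_abs, abs_mul, abs_of_nonneg hp]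
    have : |(t:ℝ)| ≤ 1 := abs_le.2 t.2
    nlinarith
  have h2 : ‖rho * FF q p (tau t)‖ ≤ rho * ‖FF q p‖ := by
    rw [norm_mul, Real.norm_of_nonneg rho_pos.le]
    exact mul_le_mul_of_nonneg_left ((FF q p).norm_coe_le_norm _) rho_pos.le
  exact (norm_sub_le _ _).trans (add_le_add h1 h2)

theorem pair_num : Pair 1014 986 (Set.IccExtend hI (FF (1+14/1000) (1-14/1000)))
    (Set.IccExtend hI (FF (1-14/1000) (1+14/1000))) := by
  have b1 := norm_bounds (1+14/1000) (1-14/1000) (by norm_num)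
  have b2 := norm_bounds (1-14/1000) (1+14/1000) (by norm_num)
  have hr : rho = 577/1000 := rfl
  refine ⟨?_, ?_, ?_, ?_⟩
  · intro t ht
    rw [ext_apply _ _ ht, ext_apply _ _ (tau_mem t ht), FF_eq, hr]
    have : tau ⟨t, ht⟩ = ⟨2*t^2-1, tau_mem t ht⟩ := rfl
    rw [this]
    push_cast
    ring
  · intro t ht
    rw [ext_apply _ _ ht, ext_apply _ _ (tau_mem t ht), FF_eq, hr]
    have : tau ⟨t, ht⟩ = ⟨2*t^2-1, tau_mem t ht⟩ := rfl
    rw [this]
    push_cast
    ring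
  · intro t ht
    rw [ext_apply _ _ ht, ← Real.norm_eq_abs]
    refine ((FF (1+14/1000) (1-14/1000)).norm_coe_le_norm _).trans ?_
    rw [hr] at b1 b2
    linarith
  · intro t ht
    rw [ext_apply _ _ ht, ← Real.norm_eq_abs]
    refine ((FF (1-14/1000) (1+14/1000)).norm_coe_le_norm _).trans ?_
    rw [hr] at b1 b2
    linarith

theorem DD_neg : DD (14/1000) < 0 := by
  obtain ⟨M, m, t₁, t₂, hb, h1, h2, h3⟩ := numeric pair_num
  unfold DD
  set F := FF (1+14/1000) (1-14/1000) with hF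
  set G := FF (1-14/1000) (1+14/1000) with hG
  obtain ⟨x, hx⟩ := (mx_spec F).2
  obtain ⟨y, hy⟩ := (mn_spec F).2
  have k1 : F x ≤ M := by
    have := (hb x.1 x.2).2
    rwa [ext_apply _ _ x.2] at this
  have k2 : m ≤ F y := by
    have := (hb y.1 y.2).1
    rwa [ext_apply _ _ y.2] at this
  rw [ext_apply _ _ h1, ext_apply _ _ h2] at h3
  have k3 := (mx_spec G).1 ⟨t₁, h1⟩
  have k4 := (mn_spec G).1 ⟨t₂, h2⟩
  rw [← hx, ← hy]
  linarith

theorem exists_theta : ∃ θ : ℝ, 0 < θ ∧ θ < 1 ∧ DD θ = 0 := by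
  have h := intermediate_value_Icc (show (14/1000 : ℝ) ≤ 1 by norm_num) DD_cont.continuousOn
  obtain ⟨θ, hθ, h0⟩ := h ⟨DD_neg.le, DD_one.le⟩
  refine ⟨θ, by linarith [hθ.1], ?_, h0⟩
  rcases hθ.2.lt_or_eq with h1 | h1
  · exact h1
  · rw [h1] at h0
    have := DD_one
    linarith

/-- normalisation of one function -/
noncomputable def nrm (w : ℝ) (f : C(I11, ℝ)) : C(I11, ℝ) :=
  (2/w) • (f - ContinuousMap.const _ ((mx f + mn f)/2))

theorem nrm_apply (w : ℝ) (f : C(I11, ℝ)) (t : I11) :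
    nrm w f t = 2/w * (f t - (mx f + mn f)/2) := rfl

theorem nrm_bound {w : ℝ} {f : C(I11, ℝ)} (hw : 0 < w) (h : mx f - mn f = w) (t : I11) :
    |nrm w f t| ≤ 1 := by
  rw [nrm_apply, abs_le]
  have h1 := (mx_spec f).1 t
  have h2 := (mn_spec f).1 t
  constructor
  · rw [div_mul_eq_mul_div, le_div_iff₀ hw]; linarith
  · rw [div_mul_eq_mul_div, div_le_iff₀ hw]; linarith

theorem nrm_max {w : ℝ} {f : C(I11, ℝ)} (hw : 0 < w) (h : mx f - mn f = w) :
    ∃ t, nrm w f t = 1 := by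
  obtain ⟨t, ht⟩ := (mx_spec f).2
  refine ⟨t, ?_⟩
  rw [nrm_apply, ht, div_mul_eq_mul_div, div_eq_one_iff_eq hw.ne']
  linarith

theorem nrm_min {w : ℝ} {f : C(I11, ℝ)} (hw : 0 < w) (h : mx f - mn f = w) :
    ∃ t, nrm w f t = -1 := by
  obtain ⟨t, ht⟩ := (mn_spec f).2
  refine ⟨t, ?_⟩
  rw [nrm_apply, ht, div_mul_eq_mul_div, div_eq_iff hw.ne']
  linarith

theorem exists_pair : ∃ (f g : C(I11, ℝ)) (α β γ δ : ℝ),
    Good rho (Set.IccExtend hI f) (Set.IccExtend hI g) α β γ δ ∧ α ≠ γ := by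
  obtain ⟨θ, h0, h1, hD⟩ := exists_theta
  set F := FF (1+θ) (1-θ) with hF
  set G := FF (1-θ) (1+θ) with hG
  set w := mx F - mn F with hw
  have hwp : 0 < w := osc_pos _ _ (by linarith)
  have hwG : mx G - mn G = w := by
    unfold DD at hD
    linarith
  refine ⟨nrm w F, nrm w G, 2/w*(1+θ),
    -(2/w)*((mx F + mn F)/2) - rho * (2/w) * ((mx G + mn G)/2), 2/w*(1-θ),
    -(2/w)*((mx G + mn G)/2) - rho * (2/w) * ((mx F + mn F)/2), ?_, ?_⟩
  · refine ⟨rho_pos, ?_, ?_, ?_, ?_, ?_, ?_, ?_, ?_, ?_, ?_⟩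
    · have : 0 < 1 + θ := by linarith
      positivity
    · have : 0 < 1 - θ := by linarith
      positivity
    · intro t ht
      rw [ext_apply _ _ ht, ext_apply _ _ (tau_mem t ht), nrm_apply, nrm_apply, hF, FF_eq]
      have : tau ⟨t, ht⟩ = ⟨2*t^2-1, tau_mem t ht⟩ := rfl
      rw [this]
      ring
    · intro t ht
      rw [ext_apply _ _ ht, ext_apply _ _ (tau_mem t ht), nrm_apply, nrm_apply, hG, FF_eq]
      have : tau ⟨t, ht⟩ = ⟨2*t^2-1, tau_mem t ht⟩ := rfl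
      rw [this]
      ring
    · intro t ht
      rw [ext_apply _ _ ht]
      exact nrm_bound hwp rfl _
    · intro t ht
      rw [ext_apply _ _ ht]
      exact nrm_bound hwp hwG _
    · obtain ⟨t, ht⟩ := nrm_max hwp (rfl : mx F - mn F = w)
      exact ⟨t.1, t.2, by rw [ext_apply _ _ t.2]; exact ht⟩
    · obtain ⟨t, ht⟩ := nrm_min hwp (rfl : mx F - mn F = w)
      exact ⟨t.1, t.2, by rw [ext_apply _ _ t.2]; exact ht⟩
    · obtain ⟨t, ht⟩ := nrm_max hwp hwG
      exact ⟨t.1, t.2, by rw [ext_apply _ _ t.2]; exact ht⟩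
    · obtain ⟨t, ht⟩ := nrm_min hwp hwG
      exact ⟨t.1, t.2, by rw [ext_apply _ _ t.2]; exact ht⟩
  · intro h
    have h2 : 1+θ = 1-θ := mul_left_cancel₀ (by positivity) h
    linarith

end Pool.Agent.H83.Bern
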