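import Mathlib
import Pool.Agent.H83.BernExist

/-!
From a good pair to the signed error sequence `e n = (-ρ)^(clog₂ n)`.
-/

set_option autoImplicit false

namespace Pool.Agent.H83.Bern

open Polynomial

/-- The signed errors. -/
noncomputable def ee (n : ℕ) : ℝ := (-rho)^(Nat.clog 2 n)

theorem abs_ee (n : ℕ) : |ee n| = rho^(Nat.clog 2 n) := by
  unfold ee
  rw [abs_pow, abs_neg, abs_of_pos rho_pos]

theorem rho_lt_one : rho < 1 := by norm_num [rho]

theorem ee_antitone : Antitone (fun n => |ee n|) := by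
  intro m n h
  simp only [abs_ee]
  exact pow_le_pow_of_le_one rho_pos.le rho_lt_one.le (Nat.clog_mono_right 2 h)

theorem ee_tendsto : Filter.Tendsto ee Filter.atTop (nhds 0) := by
  have h1 : Filter.Tendsto (fun n : ℕ => (-rho)^n) Filter.atTop (nhds 0) := by
    apply tendsto_pow_atTop_nhds_zero_of_abs_lt_one
    rw [abs_neg, abs_of_pos rho_pos]; exact rho_lt_one
  have h2 : Filter.Tendsto (fun n : ℕ => Nat.clog 2 n) Filter.atTop Filter.atTop := by
    apply Filter.tendsto_atTop_atTop.2
    intro b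
    refine ⟨2^b, fun a ha => ?_⟩
    have := Nat.clog_mono_right 2 ha
    rwa [Nat.clog_pow 2 b (by norm_num)] at this
  exact h1.comp h2

theorem ee_eq (n : ℕ) (h : |ee n| = |ee (n+1)|) : ee n = ee (n+1) := by
  rw [abs_ee, abs_ee] at h
  unfold ee
  have : Nat.clog 2 n = Nat.clog 2 (n+1) :=
    (pow_right_injective₀ rho_pos rho_lt_one.ne) h
  rw [this]

theorem main_of_good {f g : C(I11, ℝ)} {α β γ δ : ℝ}
    (h : Good rho (Set.IccExtend hI f) (Set.IccExtend hI g) α β γ δ) :
    ∃ P : ℕ → Polynomial ℝ,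
        (∀ k : ℕ, (P k).degree < (k : WithBot ℕ) ∧
          ∀ q : Polynomial ℝ, q.degree < (k : WithBot ℕ) →
            ‖f - (P k).toContinuousMapOn (Set.Icc (-1) 1)‖ ≤
              ‖f - q.toContinuousMapOn (Set.Icc (-1) 1)‖) ∧
        ∀ n : ℕ,
          (‖f - (P n).toContinuousMapOn (Set.Icc (-1) 1)‖ = 0 ∧ ee n = 0) ∨
          ∃ m : ℕ, n ≤ m ∧
            (∀ k : ℕ, n ≤ k → k < m → (P (k + 1)).coeff k = 0) ∧
            (P (m + 1)).coeff m ≠ 0 ∧
            ee n = Real.sign ((P (m + 1)).coeff m) *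
              ‖f - (P n).toContinuousMapOn (Set.Icc (-1) 1)‖ := by
  set P : ℕ → ℝ[X] := fun k => PP rho (Nat.clog 2 k) α β γ δ with hP
  have hρ := rho_pos
  -- degrees
  have hdeg : ∀ k : ℕ, (P k).degree < (k : WithBot ℕ) := by
    intro k
    rcases hc : Nat.clog 2 k with _ | n
    · have : P k = 0 := by simp only [hP, hc, PP]
      rw [this, degree_zero]
      exact WithBot.bot_lt_coe k
    · have h1 : (P k).natDegree = 2^n := by
        simp only [hP, hc]
        exact (degPP rho_pos n h.hα h.hγ).1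
      have h2 : 2^n < k := (Nat.lt_clog_iff_pow_lt (by norm_num)).1 (by omega)
      refine lt_of_le_of_lt degree_le_natDegree ?_
      rw [h1]
      exact_mod_cast h2
  -- lower bound
  have hlow : ∀ k : ℕ, ∀ q : ℝ[X], q.degree < (k : WithBot ℕ) →
      rho^(Nat.clog 2 k) ≤ ‖f - q.toContinuousMapOn (Set.Icc (-1) 1)‖ := by
    intro k q hq
    have hk : k ≤ 2^(Nat.clog 2 k) := Nat.le_pow_clog (by norm_num) k
    have h1 : (q - P k).degree < (k : WithBot ℕ) :=
      lt_of_le_of_lt (degree_sub_le _ _) (max_lt hq (hdeg k))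
    have h2 : (q - P k).natDegree < 2^(Nat.clog 2 k) := by
      by_cases h0 : q - P k = 0
      · rw [h0, natDegree_zero]; positivity
      · rw [natDegree_lt_iff_degree_lt h0]
        refine lt_of_lt_of_le h1 ?_
        exact_mod_cast hk
    obtain ⟨t, ht, hb⟩ := lower (Nat.clog 2 k) h (q - P k) h2
    rw [ext_apply _ _ ht] at hb
    have e : f ⟨t, ht⟩ - (PP rho (Nat.clog 2 k) α β γ δ).eval t - (q - P k).eval t =
        (f - q.toContinuousMapOn (Set.Icc (-1) 1)) ⟨t, ht⟩ := by
      simp only [hP, eval_sub, ContinuousMap.sub_apply, toContinuousMapOn_apply,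
        toContinuousMap_apply]
      ring
    rw [e, ← Real.norm_eq_abs] at hb
    exact hb.trans (ContinuousMap.norm_coe_le_norm _ _)
  have hnorm : ∀ k : ℕ, ‖f - (P k).toContinuousMapOn (Set.Icc (-1) 1)‖ =
      rho^(Nat.clog 2 k) := by
    intro k
    apply le_antisymm
    · rw [ContinuousMap.norm_le _ (by positivity)]
      intro t
      have := upper (Nat.clog 2 k) h t.1 t.2
      rw [ext_apply _ _ t.2] at this
      rw [Real.norm_eq_abs]
      exact this
    · exact hlow k (P k) (hdeg k)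
  refine ⟨P, fun k => ⟨hdeg k, fun q hq => ?_⟩, fun n => Or.inr ?_⟩
  · rw [hnorm k]
    exact hlow k q hq
  · set c := Nat.clog 2 n with hc
    have hn : n ≤ 2^c := Nat.le_pow_clog (by norm_num) n
    have hc1 : Nat.clog 2 (2^c+1) = c + 1 := by
      apply le_antisymm
      · apply Nat.clog_le_of_le_pow
        have : 1 ≤ 2^c := Nat.one_le_two_pow
        rw [pow_succ]; omega
      · have := (Nat.lt_clog_iff_pow_lt (b := 2) (by norm_num) (x := 2^c+1) (y := c)).2 (by omega)
        omega
    have hPm : P (2^c+1) = PP rho (c+1) α β γ δ := by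
      simp only [hP, hc1]
    obtain ⟨d1, d2⟩ := degPP rho_pos c h.hα h.hγ (β := β) (δ := δ)
    have hco : (P (2^c+1)).coeff (2^c) = (PP rho (c+1) α β γ δ).leadingCoeff := by
      rw [hPm, leadingCoeff, d1]
    refine ⟨2^c, hn, ?_, ?_, ?_⟩
    · intro k hk1 hk2
      have h1 : Nat.clog 2 (k+1) ≤ c := Nat.clog_le_of_le_pow (by omega)
      rcases hcc : Nat.clog 2 (k+1) with _ | j
      · simp only [hP, hcc, PP, coeff_zero]
      · simp only [hP, hcc]
        apply coeff_eq_zero_of_natDegree_lt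
        rw [(degPP rho_pos j h.hα h.hγ).1]
        -- j < c, so 2^j < n ≤ k
        have h2 : j < Nat.clog 2 n := by omega
        have h3 := (Nat.lt_clog_iff_pow_lt (by norm_num)).1 h2
        omega
    · rw [hco]
      intro h0
      rw [h0, mul_zero] at d2
      exact lt_irrefl _ d2
    · rw [hco, hnorm n, ← hc]
      unfold ee
      rw [← hc, neg_pow]
      congr 1
      rcases Nat.even_or_odd c with he | ho
      · rw [he.neg_one_pow] at d2 ⊢
        rw [Real.sign_of_pos (by linarith)]
      · rw [ho.neg_one_pow] at d2 ⊢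
        rw [Real.sign_of_neg (by linarith)]

theorem ne_of_good {f g : C(I11, ℝ)} {α β γ δ : ℝ}
    (h : Good rho (Set.IccExtend hI f) (Set.IccExtend hI g) α β γ δ) (hne : α ≠ γ) : f ≠ g := by
  intro hfg
  subst hfg
  have h1 := h.hf 1 (by constructor <;> norm_num)
  have h2 := h.hg 1 (by constructor <;> norm_num)
  have h3 := h.hf (-1) (by constructor <;> norm_num)
  have h4 := h.hg (-1) (by constructor <;> norm_num)
  have e : (2*(-1:ℝ)^2-1) = 1 := by norm_num
  have e' : (2*(1:ℝ)^2-1) = 1 := by norm_num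
  rw [e'] at h1 h2
  rw [e] at h3 h4
  apply hne
  linarith

end Pool.Agent.H83.Bern
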